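import Pool.Agent.Helper92.TN.GoalsH

/-!
# Project TN (MP_a41896_nt), part IND, goal GRID
-/

set_option autoImplicit false

open MvPolynomial

namespace Pool.Agent.Helper33.TN.GRID

open WeierstrassCurve
open Pool.Agent.Helper29.BL Pool.Agent.Helper92.Ru Pool.Agent.Helper42.SG
open Pool.Agent.Helper60.T3 (WL IP zd)

/-- the `x`-coordinates of the torsion translates of `R` contain a finite set with `4 ^ e`
elements -/
theorem exists_finset (hNZ : NZ1) {Ω : Type} [Field Ω] [IsAlgClosed Ω] [CharZero Ω]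
    [DecidableEq Ω] (W : Affine Ω) [W.IsElliptic] (R : W.Point) (e : ℕ)
    (h2 : 2 • ((2 ^ e) • R) ≠ 0) :
    ∃ S : Finset Ω, 4 ^ e ≤ S.card ∧
      ∀ s ∈ S, ∃ t : W.Point, (2 ^ e) • t = 0 ∧ R + t ≠ 0 ∧ xc (R + t) = s := by
  classical
  set T : Set Ω := {s | ∃ t : W.Point, (2 ^ e) • t = 0 ∧ R + t ≠ 0 ∧ xc (R + t) = s} with hT
  by_cases hfin : T.Finite
  · refine ⟨hfin.toFinset, ?_, fun s hs => by simpa [hT] using hs⟩
    by_contra hlt
    push Not at hlt
    set G : Polynomial Ω := ∏ s ∈ hfin.toFinset, (Polynomial.X - Polynomial.C s) with hG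
    have hmon : G.Monic := Polynomial.monic_prod_of_monic _ _ fun s _ =>
      Polynomial.monic_X_sub_C s
    have hdeg : G.natDegree = hfin.toFinset.card := by
      rw [hG, Polynomial.natDegree_prod_of_monic _ _ fun s _ => Polynomial.monic_X_sub_C s]
      simp
    obtain ⟨P, hP0, hP, hPG⟩ := hNZ Ω W ((2 ^ e) • R) e G h2 hmon.ne_zero (by
      rw [hdeg]; exact hlt)
    apply hPG
    have hmem : xc P ∈ hfin.toFinset := by
      rw [Set.Finite.mem_toFinset]
      refine ⟨P - R, ?_, ?_, ?_⟩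
      · rw [smul_sub, hP, sub_self]
      · simpa using hP0
      · simp
    rw [hG, Polynomial.eval_prod]
    exact Finset.prod_eq_zero hmem (by simp)
  · obtain ⟨S, hS, hcard⟩ := Set.Infinite.exists_subset_card_eq hfin (4 ^ e)
    exact ⟨S, hcard.ge, fun s hs => hS hs⟩

theorem t (hNZ : NZ1) : Pool.Agent.Helper92.TN.GRID := by
  classical
  intro K Ω _ _ _ _ _ _ σ _ _ W hW a x e h2 R hR hdeg
  have hcz : CharZero Ω := charZero_of_injective_algebraMap (algebraMap K Ω).injective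
  have hex : ∀ c : {c : σ // c ≠ a}, ∃ S : Finset Ω, 4 ^ e ≤ S.card ∧
      ∀ s ∈ S, ∃ t : (WL Ω (W c)).Point, (2 ^ e) • t = 0 ∧ x c + t ≠ 0 ∧ xc (x c + t) = s := by
    intro c
    have := hW c
    exact exists_finset hNZ (WL Ω (W c)) (x c) e (h2 c c.2)
  choose S hScard hS using hex
  have hpt : ∃ z : {c : σ // c ≠ a} → Ω, (∀ c, z c ∈ S c) ∧ eval z R ≠ 0 := by
    by_contra hcon
    push Not at hcon
    exact hR (MvPolynomial.eq_zero_of_eval_zero_at_prod_finset R S
      (fun c => (hdeg c).trans_le (hScard c)) hcon)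
  obtain ⟨z, hz, hzR⟩ := hpt
  choose t ht using fun c : {c : σ // c ≠ a} => hS c (z c) (hz c)
  refine ⟨fun i => if h : i ≠ a then t ⟨i, h⟩ else 0, fun c hc => ?_, ?_⟩
  · have h := ht ⟨c, hc⟩
    simp only [dif_pos hc]
    exact ⟨h.1, h.2.1⟩
  · have hfun : (fun c : {c : σ // c ≠ a} =>
        xc (x c + (if h : (c : σ) ≠ a then t ⟨c, h⟩ else 0))) = z := by
      funext c
      rw [dif_pos c.2]
      exact (ht c).2.2
    intro h0
    apply hzR
    rw [← h0]
    exact congrArg (fun w => eval w R) hfun.symm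

end Pool.Agent.Helper33.TN.GRID
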